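import Pool.Agent.Mg.Fd920b6.Gc40403
import Pool.Agent.Mg.Fd920b6.G55990c

namespace Pool.Agent.Results.MP_d920b6_mp.Counterexample

open Module

/-- The coadjoint stabiliser `g_x = {ξ | x [ξ, η] = 0 for all η}`. -/
def stab {K L : Type} [Field K] [LieRing L] [LieAlgebra K L] (x : Dual K L) : Submodule K L where
  carrier := {ξ | ∀ η : L, x ⁅ξ, η⁆ = 0}
  add_mem' := fun ha hb η => by rw [add_lie, map_add, ha η, hb η, add_zero]
  zero_mem' := fun η => by rw [zero_lie, map_zero]
  smul_mem' := fun c ξ h η => by rw [smul_lie, map_smul, h η, smul_zero]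

/-- The index: the least dimension of a coadjoint stabiliser. -/
noncomputable def index (K L : Type) [Field K] [LieRing L] [LieAlgebra K L] : ℕ :=
  sInf (Set.range fun x : Dual K L => finrank K (stab x))

/-- The differential `df(x) ∈ g` of a polynomial `f` in the coordinates `x ↦ x (b i)` of `g*`. -/
noncomputable def diffAt {K L ι : Type} [Field K] [LieRing L] [LieAlgebra K L] [Fintype ι]
    (b : Basis ι K L) (f : MvPolynomial ι K) (x : Dual K L) : L :=
  ∑ i, MvPolynomial.eval (fun j => x (b j)) (MvPolynomial.pderiv i f) • b i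

open Pool.Agent.MP_d920b6_mp.Cx in
theorem result (K : Type) [Field K] [Algebra K ℂ] :
    ∃ (L : Type) (_ : LieRing L) (_ : LieAlgebra K L) (ι : Type) (_ : Fintype ι)
      (b : Basis ι K L) (a : Dual K L), finrank K (stab a) = index K L ∧
      ¬∃ G : Set (MvPolynomial ι K),
        (∀ f ∈ G, ∀ g ∈ G, ∀ x : Dual K L,
          x ⁅diffAt b f x, diffAt b g x⁆ = 0 ∧ a ⁅diffAt b f x, diffAt b g x⁆ = 0) ∧
        ∃ f : Fin ((finrank K L + index K L) / 2) → MvPolynomial ι K, (∀ i, f i ∈ G) ∧
          ∃ x : Dual K L, LinearIndependent K fun i => diffAt b (f i) x := by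
  have : CharZero K := (algebraMap K ℂ).charZero
  have hst : ∀ x : Dual K (LL K),
      stab x = (LinearMap.ker (PFL fun j => x (bLL K j)) : Submodule K (II → K)) := fun x => by
    ext ξ
    refine ⟨fun h => LinearMap.ext fun η => ?_, fun h η => ?_⟩
    · exact (dual_lie x ξ η).symm.trans (h η)
    · exact (dual_lie x ξ η).trans (LinearMap.congr_fun h η)
  have ha : finrank K (stab (cov (aI : II → K))) = 54 := by
    rw [hst, show (fun j => cov (aI : II → K) (bLL K j)) = aI from funext (cov_basis _)]
    exact cork_aI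
  have hi : index K (LL K) = 54 := by
    refine le_antisymm (Nat.sInf_le ⟨_, ha⟩) (le_csInf (Set.range_nonempty _) ?_)
    rintro _ ⟨x, rfl⟩
    change 54 ≤ finrank K (stab x)
    rw [hst]
    exact cork_ge _
  refine ⟨LL K, inferInstance, inferInstance, II, inferInstance, bLL K, cov aI,
    ha.trans hi.symm, ?_⟩
  rintro ⟨G, hG, f, hf, x₀, hli⟩
  have hd : ∀ (g : MvPolynomial II K) (x : Dual K (LL K)), diffAt (bLL K) g x =
      fun l => MvPolynomial.eval (fun j => x (bLL K j)) (MvPolynomial.pderiv l g) :=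
    fun g x => sum_bLL _
  obtain ⟨F⟩ := fam_of _ f (by rw [finrank_LL, hi]) (fun i j x => by
    have h := hG _ (hf i) _ (hf j) (cov x)
    rw [dual_lie, dual_lie, hd, hd] at h
    simpa only [cov_basis] using h) (fun j => x₀ (bLL K j)) (by
      simp only [hd] at hli
      exact hli)
  exact no_fam F

end Pool.Agent.Results.MP_d920b6_mp.Counterexample
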