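import Pool.Agent.Mg.Fd920b6a.Gdfaab7

namespace Pool.Agent.Results.MP_d920b6_mp.Nilpotent

open Module

/-- The coadjoint stabiliser `g_x = {ξ | x [ξ, η] = 0 for all η}`. -/
def stab {K L : Type*} [Field K] [LieRing L] [LieAlgebra K L] (x : Dual K L) : Submodule K L where
  carrier := {ξ | ∀ η : L, x ⁅ξ, η⁆ = 0}
  add_mem' := fun ha hb η => by rw [add_lie, map_add, ha η, hb η, add_zero]
  zero_mem' := fun η => by rw [zero_lie, map_zero]
  smul_mem' := fun c ξ h η => by rw [smul_lie, map_smul, h η, smul_zero]

/-- The index: the least dimension of a coadjoint stabiliser. -/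
noncomputable def index (K L : Type*) [Field K] [LieRing L] [LieAlgebra K L] : ℕ :=
  sInf (Set.range fun x : Dual K L => finrank K (stab x))

/-- The differential `df(x) ∈ g` of a polynomial `f` in the coordinates `x ↦ x (b i)` of `g*`. -/
noncomputable def diffAt {K L ι : Type*} [Field K] [LieRing L] [LieAlgebra K L] [Fintype ι]
    (b : Basis ι K L) (f : MvPolynomial ι K) (x : Dual K L) : L :=
  ∑ i, MvPolynomial.eval (fun j => x (b j)) (MvPolynomial.pderiv i f) • b i

open Pool.Agent.MP_d920b6_mp.Nil MvPolynomial Matrix in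
theorem result {K L H ι : Type*} [Field K] [CharZero K] [LieRing L] [LieAlgebra K L] [Fintype ι]
    (b : Basis ι K L) [LieRing H] [LieAlgebra K H] [LieRing.IsNilpotent H]
    (φ : H →ₗ⁅K⁆ L) (hφ : Function.Injective φ)
    (hH : finrank K L + index K L ≤ finrank K H + index K H) (a : Dual K L) :
    ∃ (m : ℕ) (f : Fin m → MvPolynomial ι K),
      finrank K L + index K L ≤ 2 * m ∧
      (∀ (i j : Fin m) (x : Dual K L),
        x ⁅diffAt b (f i) x, diffAt b (f j) x⁆ = 0 ∧
        a ⁅diffAt b (f i) x, diffAt b (f j) x⁆ = 0) ∧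
      ∃ p : MvPolynomial ι K, p ≠ 0 ∧ ∀ x : Dual K L,
        MvPolynomial.eval (fun j => x (b j)) p ≠ 0 →
          LinearIndependent K fun i => diffAt b (f i) x := by
  classical
  have : FiniteDimensional K L := Module.Finite.of_basis b
  have : FiniteDimensional K H := FiniteDimensional.of_injective φ.toLinearMap hφ
  obtain ⟨n, hn, e, he⟩ : ∃ n, finrank K H = n ∧ ∃ e : Basis (Fin n) K H,
      Tri fun i j k => e.repr ⁅e i, e j⁆ k := ⟨_, rfl, exists_tri⟩
  obtain ⟨y0, hy0⟩ : index K H ∈ Set.range fun x : Dual K H => finrank K (stab x) :=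
    Nat.sInf_mem (Set.range_nonempty _)
  have hr0 := rank_eval e y0 (stab y0) fun _ => Iff.rfl
  obtain ⟨m, f, h1, h2, p, hp, h3⟩ := coord he (fun i => a (φ (e i))) (fun i => y0 (e i))
    fun z => by
      have e1 := rank_eval e (e.constr K z) (stab _) fun _ => Iff.rfl
      have e2 : index K H ≤ finrank K (stab (e.constr K z)) := Nat.sInf_le ⟨_, rfl⟩
      simp only [Basis.constr_basis] at e1 hy0
      rw [show (fun i => z i) = z from rfl] at e1
      omega
  let ψ : MvPolynomial (Fin n) K →ₐ[K] MvPolynomial ι K :=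
    aeval fun i => ∑ j, b.repr (φ (e i)) j • X j
  have hev : ∀ (x : Dual K L) g, eval (fun j => x (b j)) (ψ g) =
      eval (fun i => x (φ (e i))) g := by
    intro x g
    have : (aeval (fun j => x (b j))).comp ψ = aeval (fun i => x (φ (e i))) := by
      refine MvPolynomial.algHom_ext fun i => ?_
      conv_rhs => rw [aeval_X, ← b.sum_repr (φ (e i)), map_sum]
      simp [ψ]
    exact AlgHom.congr_fun this g
  have hdiff : ∀ (x : Dual K L) g, diffAt b (ψ g) x =
      φ (∑ i, (eval (fun i => x (φ (e i))) ∘ grad g) i • e i) := by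
    intro x g
    have e1 : ∀ j, pderiv j (ψ g) = ∑ i, C (b.repr (φ (e i)) j) * ψ (pderiv i g) := by
      intro j
      have := chain ψ ((pderiv j : Derivation K _ (MvPolynomial ι K)).toLinearMap.comp
        ψ.toLinearMap) (fun u v => by simp [Derivation.leibniz]) g
      refine this.trans (Finset.sum_congr rfl fun i _ => ?_)
      congr 1
      simp only [ψ, LinearMap.comp_apply, AlgHom.toLinearMap_apply, aeval_X, map_sum, map_smul,
        Derivation.coeFn_coe, pderiv_X]
      rw [Finset.sum_eq_single j]
      · simp [smul_eq_C_mul]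
      · intro l _ hl; simp [hl]
      · simp
    simp only [diffAt, e1, map_sum, map_mul, eval_C, hev, Finset.sum_smul, map_smul,
      Function.comp_apply, grad]
    rw [Finset.sum_comm]
    refine Finset.sum_congr rfl fun i _ => ?_
    conv_rhs => rw [← b.sum_repr (φ (e i)), Finset.smul_sum]
    exact Finset.sum_congr rfl fun j _ => by rw [smul_smul, mul_comm]
  refine ⟨m, fun i => ψ (f i), ?_, fun i j x => ?_, ψ p, ?_, fun x hx => ?_⟩
  · simp only at hy0
    omega
  · rw [hdiff, hdiff, ← LieHom.map_lie]
    refine ⟨?_, ?_⟩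
    · have e1 := PM_eval e (x.comp φ.toLinearMap) (eval (fun i => x (φ (e i))) ∘ grad (f i))
        (eval (fun i => x (φ (e i))) ∘ grad (f j))
      refine e1.symm.trans ?_
      have e2 := congrArg (eval fun i => x (φ (e i))) (h2 i j).1
      simpa [dotProduct, mulVec] using e2
    · have e1 := PM_eval e (a.comp φ.toLinearMap) (eval (fun i => x (φ (e i))) ∘ grad (f i))
        (eval (fun i => x (φ (e i))) ∘ grad (f j))
      refine e1.symm.trans ?_
      have e2 := congrArg (eval fun i => x (φ (e i))) (h2 i j).2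
      simpa [dotProduct, mulVec] using e2
  · intro h0
    refine hp (MvPolynomial.funext fun z => ?_)
    obtain ⟨x, hx⟩ := LinearMap.dualMap_surjective_of_injective (f := φ.toLinearMap) hφ
      (e.constr K z)
    have e1 := hev x p
    have e2 : (fun i => x (φ (e i))) = z := funext fun i => by
      have := LinearMap.congr_fun hx (e i)
      simpa using this
    rw [h0, e2] at e1
    simpa using e1.symm
  · rw [hev] at hx
    simp only [hdiff]
    have e1 := (h3 _ hx).map' (φ.toLinearMap.comp e.equivFun.symm.toLinearMap)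
      (LinearMap.ker_eq_bot.2 (hφ.comp e.equivFun.symm.injective))
    have e2 : (fun i => φ (∑ l, (eval (fun i => x (φ (e i))) ∘ grad (f i)) l • e l)) =
        (φ.toLinearMap.comp e.equivFun.symm.toLinearMap) ∘
          fun i => eval (fun i => x (φ (e i))) ∘ grad (f i) := by
      ext i
      simp
    rw [e2]
    exact e1

end Pool.Agent.Results.MP_d920b6_mp.Nilpotent
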